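import Pool.Agent.Helper57.SI.Stmts

/-!
# Row DL: the lower bound for the Euler product
-/

set_option autoImplicit false

namespace Pool.Agent.Helper11.SI

open MeasureTheory Set Filter Topology
open Pool.Agent.Helper57.QZ (Pr tor circ aa Zy Wy Sy Vy Ky Fy pt lin)
open Pool.Agent.Helper57.SI

/-- the primes up to `z` and the others -/
theorem dl_split (g : ℕ → ℝ) {z y : ℕ} (h : z ≤ y) :
    ∑ p ∈ Nat.primesBelow (y + 1), g p = ∑ p ∈ Nat.primesBelow (z + 1), g p +
      ∑ p ∈ Nat.primesBelow (y + 1), (if z < p then g p else 0) := by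
  have h1 : Nat.primesBelow (z + 1) = (Nat.primesBelow (y + 1)).filter (fun p => p ≤ z) := by
    ext p
    simp only [Nat.primesBelow, Finset.mem_filter, Finset.mem_range]
    constructor
    · rintro ⟨a, b⟩
      exact ⟨⟨by omega, b⟩, by omega⟩
    · rintro ⟨⟨a, b⟩, c⟩
      exact ⟨by omega, b⟩
  rw [h1, Finset.sum_filter, ← Finset.sum_add_distrib]
  refine Finset.sum_congr rfl fun p _ => ?_
  by_cases hp : p ≤ z
  · rw [if_pos hp, if_neg (by omega), add_zero]
  · rw [if_neg hp, if_pos (by omega), zero_add]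

theorem dl_sub (y : ℕ) (g : ℕ → ℝ) : ∑ p : Pr y, g (p : ℕ) = ∑ p ∈ Nat.primesBelow (y + 1), g p :=
  Finset.sum_coe_sort (Nat.primesBelow (y + 1)) g

theorem dl_tail {z y : ℕ} (hz : 1 ≤ z) (h : z ≤ y) :
    ∑ p ∈ Nat.primesBelow (y + 1), (if z < p then 1 / (p : ℝ) ^ 2 else 0) ≤ 1 / Real.sqrt z := by
  have h1 : ∑ p ∈ Nat.primesBelow (y + 1), (if z < p then 1 / (p : ℝ) ^ 2 else 0) ≤
      ∑ n ∈ Finset.Ioc z y, ((n : ℝ) ^ 2)⁻¹ := by
    rw [← Finset.sum_filter]
    refine (Finset.sum_le_sum_of_subset_of_nonneg ?_ fun _ _ _ => by positivity).trans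
      (le_of_eq (Finset.sum_congr rfl fun n _ => one_div _))
    intro p hp
    simp only [Nat.primesBelow, Finset.mem_filter, Finset.mem_range] at hp
    rw [Finset.mem_Ioc]
    exact ⟨hp.2, by omega⟩
  have h2 := sum_Ioc_inv_sq_le_sub (α := ℝ) (k := z) (n := y) (by omega) h
  have h3 : 0 ≤ ((y : ℝ))⁻¹ := by positivity
  have hz0 : (1 : ℝ) ≤ z := by exact_mod_cast hz
  have h4 : ((z : ℝ))⁻¹ ≤ 1 / Real.sqrt z := by
    rw [one_div]
    refine inv_anti₀ (Real.sqrt_pos.2 (by linarith)) ?_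
    rw [Real.sqrt_le_left (by linarith)]
    nlinarith
  linarith

theorem st_DL (h : Pool.Agent.Helper57.QZ.ST_DT1) : ST_DL := by
  refine ⟨32, by norm_num, ?_⟩
  intro y z t η hz hzy hD hT
  obtain ⟨hne, -, hlow, -⟩ := h y 1 (lin y t) (by norm_num)
  have hpos : 0 < ‖Zy y 1 (lin y t)‖ := norm_pos_iff.2 hne
  rw [← Real.le_log_iff_exp_le hpos]
  have haa : ∀ p : ℕ, aa 1 p = 1 / (p : ℝ) := by
    intro p
    rw [aa, Real.rpow_neg_one, one_div]
  -- the linear part
  have hS : Sy y 1 (lin y t) =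
      ∑ p ∈ Nat.primesBelow (y + 1), 1 / (p : ℝ) * Real.cos (t * Real.log p) := by
    rw [← dl_sub y fun p => 1 / (p : ℝ) * Real.cos (t * Real.log p)]
    unfold Sy
    refine Finset.sum_congr rfl fun p _ => ?_
    rw [haa]
    rfl
  have hDs : D1 z 0 t =
      ∑ p ∈ Nat.primesBelow (z + 1), (1 - Real.cos (t * Real.log p)) / (p : ℝ) := by
    rw [← dl_sub z fun p => (1 - Real.cos (t * Real.log p)) / (p : ℝ)]
    unfold D1
    refine Finset.sum_congr rfl fun p _ => ?_
    rw [add_zero]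
  have hR : (tl 0 y z (lin y t)).re =
      ∑ p ∈ Nat.primesBelow (y + 1), (if z < p then 1 / (p : ℝ) * Real.cos (t * Real.log p)
        else 0) := by
    rw [← dl_sub y fun p => if z < p then 1 / (p : ℝ) * Real.cos (t * Real.log p) else 0]
    unfold tl
    rw [Complex.re_sum]
    refine Finset.sum_congr rfl fun p _ => ?_
    by_cases hp : z < (p : ℕ)
    · rw [if_pos hp, if_pos hp, pow_zero, Complex.re_ofReal_mul]
      congr 1
      have e : -(((lin y t p : ℝ) : ℂ) * Complex.I) =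
          ((-(t * Real.log ((p : ℕ) : ℝ)) : ℝ) : ℂ) * Complex.I := by
        simp [lin]
      rw [e, Complex.exp_ofReal_mul_I_re, Real.cos_neg]
    · rw [if_neg hp, if_neg hp]
      simp
  have hsp := dl_split (fun p => 1 / (p : ℝ) * Real.cos (t * Real.log p)) hzy
  have hP : P1 z - D1 z 0 t =
      ∑ p ∈ Nat.primesBelow (z + 1), 1 / (p : ℝ) * Real.cos (t * Real.log p) := by
    rw [hDs, P1, ← Finset.sum_sub_distrib]
    refine Finset.sum_congr rfl fun p _ => ?_
    ring
  have hre : -η ≤ (tl 0 y z (lin y t)).re :=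
    (neg_le_neg hT).trans (abs_le.1 (Complex.abs_re_le_norm _)).1
  have hS2 : P1 z - 2 * η ≤ Sy y 1 (lin y t) := by
    rw [hS, hsp, ← hP, ← hR]
    linarith
  -- the quadratic part
  have hQ : ∑ p : Pr y, aa 1 p ^ 2 * (1 - Real.cos (lin y t p)) ≤ η + 2 * (1 / Real.sqrt z) := by
    have e1 : ∑ p : Pr y, aa 1 p ^ 2 * (1 - Real.cos (lin y t p)) =
        ∑ p ∈ Nat.primesBelow (y + 1), 1 / (p : ℝ) ^ 2 * (1 - Real.cos (t * Real.log p)) := by
      rw [← dl_sub y fun p => 1 / (p : ℝ) ^ 2 * (1 - Real.cos (t * Real.log p))]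
      refine Finset.sum_congr rfl fun p _ => ?_
      rw [haa, div_pow, one_pow]
      rfl
    rw [e1, dl_split (fun p => 1 / (p : ℝ) ^ 2 * (1 - Real.cos (t * Real.log p))) hzy]
    have e2 : ∑ p ∈ Nat.primesBelow (z + 1), 1 / (p : ℝ) ^ 2 * (1 - Real.cos (t * Real.log p)) ≤
        D1 z 0 t := by
      rw [hDs]
      refine Finset.sum_le_sum fun p hp => ?_
      simp only [Nat.primesBelow, Finset.mem_filter, Finset.mem_range] at hp
      have h1 : (1 : ℝ) ≤ p := by exact_mod_cast hp.2.one_lt.le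
      have h2 : 0 ≤ 1 - Real.cos (t * Real.log p) := by
        have := Real.cos_le_one (t * Real.log p)
        linarith
      have h3 : 1 / (p : ℝ) ^ 2 ≤ 1 / (p : ℝ) :=
        one_div_le_one_div_of_le (by linarith) (by nlinarith)
      calc 1 / (p : ℝ) ^ 2 * (1 - Real.cos (t * Real.log p))
          ≤ 1 / (p : ℝ) * (1 - Real.cos (t * Real.log p)) := mul_le_mul_of_nonneg_right h3 h2
        _ = _ := by ring
    have e3 : ∑ p ∈ Nat.primesBelow (y + 1),
        (if z < p then 1 / (p : ℝ) ^ 2 * (1 - Real.cos (t * Real.log p)) else 0) ≤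
        2 * ∑ p ∈ Nat.primesBelow (y + 1), (if z < p then 1 / (p : ℝ) ^ 2 else 0) := by
      rw [Finset.mul_sum]
      refine Finset.sum_le_sum fun p _ => ?_
      by_cases hp : z < p
      · rw [if_pos hp, if_pos hp]
        have h2 := Real.neg_one_le_cos (t * Real.log p)
        have h3 : 0 ≤ 1 / (p : ℝ) ^ 2 := by positivity
        nlinarith
      · rw [if_neg hp, if_neg hp, mul_zero]
    have e4 := dl_tail hz hzy
    linarith
  have e5 : (32 : ℝ) / Real.sqrt z = 32 * (1 / Real.sqrt z) := by ring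
  rw [e5]
  linarith

end Pool.Agent.Helper11.SI
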