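import Pool.Agent.Helper57.SI.Stmts

/-!
# Row KW3: Weyl's theorem as an upper bound on a longer interval
-/

set_option autoImplicit false

namespace Pool.Agent.Helper11.SI

open MeasureTheory Set Filter Topology
open Pool.Agent.Helper57.QZ Pool.Agent.Helper57.SI

theorem st_KW3 (h : Pool.Agent.Helper57.QZ.ST_KW1) : ST_KW3 := by
  intro y G hG hG0 hper η hη
  obtain ⟨T₀, hT₀, hK⟩ := h y Unit (fun _ => G) (hG.comp continuous_snd)
    (fun _ φ p => hper φ p) η hη
  refine ⟨2 * T₀, by positivity, fun T hT => ?_⟩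
  have hT0 : 0 < T := by linarith
  have hlin : Continuous (fun t : ℝ => lin y t) := by
    unfold lin
    fun_prop
  have hc : Continuous (fun t : ℝ => G (lin y t)) := hG.comp hlin
  have hI : 0 ≤ ∫ φ, G φ ∂tor y := integral_nonneg fun φ => hG0 φ
  have k1 := (abs_le.1 (hK (T / 2) (by linarith) ())).2
  have k2 := (abs_le.1 (hK T (by linarith) ())).2
  have k3 := (abs_le.1 (hK (2 * T) (by linarith) ())).2
  have e1 : 2 * (T / 2) = T := by ring
  have e2 : 2 * (2 * T) = 4 * T := by ring
  rw [e1] at k1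
  rw [e2] at k3
  have i : ∀ a b : ℝ, IntervalIntegrable (fun t : ℝ => G (lin y t)) volume a b :=
    fun a b => hc.intervalIntegrable a b
  rw [← intervalIntegral.integral_add_adjacent_intervals (i (T / 2) T) (i T (4 * T)),
    ← intervalIntegral.integral_add_adjacent_intervals (i T (2 * T)) (i (2 * T) (4 * T))]
  have h5 : 0 ≤ T * (∫ φ, G φ ∂tor y) := mul_nonneg hT0.le hI
  have h6 : 0 < T * η := mul_pos hT0 hη
  nlinarith

end Pool.Agent.Helper11.SI
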